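import Pool.Agent.Helper25_CN2.Stmts
import Pool.Agent.Helper31_CON.Inv

/-!
# Squad CN2: module I_EXC
-/

namespace Pool.Agent.CN2.H50

open Pool.Agent.H25Cong Pool.Agent.CON Pool.Agent.CN2

noncomputable section

/-- The Gram matrix of U + E_7 + A_1 + 2 A_1. -/
def g0 : Fin 11 → Fin 11 → ℤ :=
  ![![0, -1, 0, 0, 0, 0, 0, 0, 0, 0, 0], ![-1, 0, 0, 0, 0, 0, 0, 0, 0, 0, 0],
    ![0, 0, 2, -1, 0, 0, 0, 0, 0, 0, 0], ![0, 0, -1, 2, -1, 0, 0, 0, 0, 0, 0],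
    ![0, 0, 0, -1, 2, -1, 0, 0, 0, 0, 0], ![0, 0, 0, 0, -1, 2, -1, -1, 0, 0, 0],
    ![0, 0, 0, 0, 0, -1, 2, 0, 0, 0, 0], ![0, 0, 0, 0, 0, -1, 0, 2, -1, 0, 0],
    ![0, 0, 0, 0, 0, 0, 0, -1, 2, 0, 0], ![0, 0, 0, 0, 0, 0, 0, 0, 0, 2, 0],
    ![0, 0, 0, 0, 0, 0, 0, 0, 0, 0, 4]]

theorem ent_g0 : ∀ i j : Fin 11,
    ent (blk hyp (gr [(.E 7, 1), (.A 1, 1), (.A 1, 2)])) i j = g0 i j := by decide +kernel

/-- The products of a vector with the basis vectors. -/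
def ro (z : Fin 11 → ℤ) (j : Fin 11) : ℤ := ∑ i, z i * g0 i j

/-- The rows. -/
theorem rows (z : Fin 11 → ℤ) :
    ro z 0 = - z 1 ∧ ro z 1 = - z 0 ∧
    ro z 2 = 2 * z 2 - z 3 ∧ ro z 3 = - z 2 + 2 * z 3 - z 4 ∧
    ro z 4 = - z 3 + 2 * z 4 - z 5 ∧
    ro z 5 = - z 4 + 2 * z 5 - z 6 - z 7 ∧ ro z 6 = - z 5 + 2 * z 6 ∧
    ro z 7 = - z 5 + 2 * z 7 - z 8 ∧ ro z 8 = - z 7 + 2 * z 8 ∧
    ro z 9 = 2 * z 9 ∧ ro z 10 = 4 * z 10 := by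
  refine ⟨?_, ?_, ?_, ?_, ?_, ?_, ?_, ?_, ?_, ?_, ?_⟩ <;>
    simp [ro, Fin.sum_univ_succ, g0] <;> ring

section

variable {L : Submodule ℤ (V 10)} (a : Module.Basis (Fin 11) ℝ (V 10))

/-- The vector with integral coordinates `z`. -/
def ve (z : Fin 11 → ℤ) : V 10 := ∑ i, (z i : ℝ) • a i

theorem mem_ve (x : V 10) : x ∈ Submodule.span ℤ (Set.range a) ↔ ∃ z, x = ve a z := by
  constructor
  · intro hx
    rw [Module.Basis.mem_span_iff_repr_mem] at hx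
    choose z hz using hx
    refine ⟨z, ?_⟩
    unfold ve
    conv_lhs => rw [← a.sum_repr x]
    refine Finset.sum_congr rfl fun i _ => ?_
    rw [← hz i]
    rfl
  · rintro ⟨z, rfl⟩
    refine Submodule.sum_mem _ fun i _ => ?_
    rw [Int.cast_smul_eq_zsmul]
    exact Submodule.smul_mem _ _ (Submodule.subset_span ⟨i, rfl⟩)

theorem ve_add (z w : Fin 11 → ℤ) : ve a (z + w) = ve a z + ve a w := by
  unfold ve
  rw [← Finset.sum_add_distrib]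
  refine Finset.sum_congr rfl fun i _ => ?_
  rw [Pi.add_apply, Int.cast_add, add_smul]

theorem ve_smul (k : ℤ) (z : Fin 11 → ℤ) : ve a (k • z) = (k : ℝ) • ve a z := by
  unfold ve
  rw [Finset.smul_sum]
  refine Finset.sum_congr rfl fun i _ => ?_
  rw [Pi.smul_apply, smul_eq_mul, Int.cast_mul, mul_smul]

theorem ve_inj {z w : Fin 11 → ℤ} (h : ve a z = ve a w) : z = w := by
  have h1 : ∀ (z : Fin 11 → ℤ) (i : Fin 11), a.repr (ve a z) i = z i := by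
    intro z i
    unfold ve
    rw [a.repr_sum_self]
  funext i
  have h2 := h1 z i
  rw [h, h1 w i] at h2
  exact_mod_cast h2.symm

variable (hG : ∀ i j, B (a i) (a j) = (g0 i j : ℤ))

include hG in
theorem B_ve (z : Fin 11 → ℤ) (j : Fin 11) : B (ve a z) (a j) = (ro z j : ℝ) := by
  unfold ve ro
  rw [B_sum_left]
  push_cast
  refine Finset.sum_congr rfl fun i _ => ?_
  rw [B_smul_left, hG]

include hG in
theorem B_ve_ve (z w : Fin 11 → ℤ) :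
    B (ve a z) (ve a w) = ((∑ j, w j * ro z j : ℤ) : ℝ) := by
  conv_lhs => unfold ve
  rw [B_sum_right]
  push_cast
  refine Finset.sum_congr rfl fun j _ => ?_
  rw [B_smul_right]
  have := B_ve a hG z j
  unfold ve at this
  rw [this]

/-- The norm. -/
def nm (z : Fin 11 → ℤ) : ℤ := -2 * z 0 * z 1 + 2 * (z 2 ^ 2 + z 3 ^ 2 + z 4 ^ 2 + z 5 ^ 2 +
  z 6 ^ 2 + z 7 ^ 2 + z 8 ^ 2) - 2 * (z 2 * z 3 + z 3 * z 4 + z 4 * z 5 + z 5 * z 6 + z 5 * z 7 +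
  z 7 * z 8) + 2 * z 9 ^ 2 + 4 * z 10 ^ 2

include hG in
theorem B_nm (z : Fin 11 → ℤ) : B (ve a z) (ve a z) = (nm z : ℝ) := by
  rw [B_ve_ve a hG]
  obtain ⟨h0, h1, h2, h3, h4, h5, h6, h7, h8, h9, h10⟩ := rows z
  have h : ∑ j, z j * ro z j = nm z := by
    rw [Fin.sum_univ_succ, Fin.sum_univ_succ, Fin.sum_univ_succ, Fin.sum_univ_succ,
      Fin.sum_univ_succ, Fin.sum_univ_succ, Fin.sum_univ_succ, Fin.sum_univ_succ,
      Fin.sum_univ_succ, Fin.sum_univ_succ, Fin.sum_univ_one]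
    change z 0 * ro z 0 + (z 1 * ro z 1 + (z 2 * ro z 2 + (z 3 * ro z 3 + (z 4 * ro z 4 +
      (z 5 * ro z 5 + (z 6 * ro z 6 + (z 7 * ro z 7 + (z 8 * ro z 8 + (z 9 * ro z 9 +
      z 10 * ro z 10))))))))) = nm z
    rw [h0, h1, h2, h3, h4, h5, h6, h7, h8, h9, h10]
    unfold nm
    ring
  rw [h]

end

/-- Twice the glue vector. -/
def wv : Fin 11 → ℤ := ![0, 0, 1, 0, 1, 0, 1, 0, 0, 1, 0]

theorem forall11 {P : Fin 11 → Prop} (h0 : P 0) (h1 : P 1) (h2 : P 2) (h3 : P 3) (h4 : P 4)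
    (h5 : P 5) (h6 : P 6) (h7 : P 7) (h8 : P 8) (h9 : P 9) (h10 : P 10) : ∀ i, P i := by
  intro i
  fin_cases i
  · exact h0
  · exact h1
  · exact h2
  · exact h3
  · exact h4
  · exact h5
  · exact h6
  · exact h7
  · exact h8
  · exact h9
  · exact h10

theorem pqr {p q r : ℤ} (hp : p = 0 ∨ p = 1) (hq : q = 0 ∨ q = 1) (hr : r = 0 ∨ r = 1)
    (h : (8 : ℤ) ∣ 6 * p ^ 2 + 2 * q ^ 2 + 4 * r ^ 2) :
    (p = 0 ∧ q = 0 ∧ r = 0) ∨ (p = 1 ∧ q = 1 ∧ r = 0) := by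
  rcases hp with rfl | rfl <;> rcases hq with rfl | rfl <;> rcases hr with rfl | rfl <;>
    revert h <;> decide

theorem half {x : ℤ} (h : (2 : ℤ) ∣ x) : ∃ u, x = 2 * u := h

theorem par (z : Fin 11 → ℤ) (h : ∀ j, (2 : ℤ) ∣ ro z j) :
    (2 : ℤ) ∣ z 0 ∧ (2 : ℤ) ∣ z 1 ∧ (2 : ℤ) ∣ z 3 ∧ (2 : ℤ) ∣ z 5 ∧ (2 : ℤ) ∣ z 7 ∧ (2 : ℤ) ∣ z 8 ∧
    (2 : ℤ) ∣ z 4 - z 2 ∧ (2 : ℤ) ∣ z 6 - z 2 := by
  obtain ⟨r0, r1, r2, r3, r4, r5, r6, r7, r8, -, -⟩ := rows z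
  have e0 := h 0
  have e1 := h 1
  have e2 := h 2
  have e3 := h 3
  have e5 := h 5
  have e6 := h 6
  have e7 := h 7
  have e8 := h 8
  rw [r0] at e0
  rw [r1] at e1
  rw [r2] at e2
  rw [r3] at e3
  rw [r5] at e5
  rw [r6] at e6
  rw [r7] at e7
  rw [r8] at e8
  clear r0 r1 r2 r3 r4 r5 r6 r7 r8 h
  have f0 : (2 : ℤ) ∣ z 0 := by clear e0 e2 e3 e5 e6 e7 e8; omega
  have f1 : (2 : ℤ) ∣ z 1 := by clear e1 e2 e3 e5 e6 e7 e8; omega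
  have f3 : (2 : ℤ) ∣ z 3 := by clear e0 e1 e3 e5 e6 e7 e8; omega
  have f5 : (2 : ℤ) ∣ z 5 := by clear e0 e1 e2 e3 e5 e7 e8; omega
  have f7 : (2 : ℤ) ∣ z 7 := by clear e0 e1 e2 e3 e5 e6 e7; omega
  have f8 : (2 : ℤ) ∣ z 8 := by clear e0 e1 e2 e3 e5 e6 e8; omega
  have f4 : (2 : ℤ) ∣ z 4 - z 2 := by clear e0 e1 e2 e5 e6 e7 e8; omega
  refine ⟨f0, f1, f3, f5, f7, f8, f4, ?_⟩
  clear e0 e1 e2 e3 e6 e7 e8
  omega

theorem glue (z : Fin 11 → ℤ) (h : ∀ j, (2 : ℤ) ∣ ro z j) (h8 : (8 : ℤ) ∣ nm z) :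
    ∃ u : Fin 11 → ℤ, (∀ i, z i = 2 * u i) ∨ ∀ i, z i = 2 * u i + wv i := by
  obtain ⟨⟨u0, hu0⟩, ⟨u1, hu1⟩, ⟨u3, hu3⟩, ⟨u5, hu5⟩, ⟨u7, hu7⟩, ⟨u8, hu8⟩, ⟨v4, hv4⟩,
    ⟨v6, hv6⟩⟩ := par z h
  clear h
  obtain ⟨p, hp, u2, hu2⟩ : ∃ p : ℤ, (p = 0 ∨ p = 1) ∧ ∃ u, z 2 = 2 * u + p :=
    ⟨z 2 % 2, Int.emod_two_eq_zero_or_one _, z 2 / 2, (Int.mul_ediv_add_emod _ _).symm⟩
  obtain ⟨u4, hu4⟩ : ∃ u, z 4 = 2 * u + p := ⟨u2 + v4, by linarith⟩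
  obtain ⟨u6, hu6⟩ : ∃ u, z 6 = 2 * u + p := ⟨u2 + v6, by linarith⟩
  obtain ⟨q, hq, u9, hu9⟩ : ∃ p : ℤ, (p = 0 ∨ p = 1) ∧ ∃ u, z 9 = 2 * u + p :=
    ⟨z 9 % 2, Int.emod_two_eq_zero_or_one _, z 9 / 2, (Int.mul_ediv_add_emod _ _).symm⟩
  obtain ⟨r, hr, u10, hu10⟩ : ∃ p : ℤ, (p = 0 ∨ p = 1) ∧ ∃ u, z 10 = 2 * u + p :=
    ⟨z 10 % 2, Int.emod_two_eq_zero_or_one _, z 10 / 2, (Int.mul_ediv_add_emod _ _).symm⟩
  have hn : nm z = 8 * (-u0 * u1 + u2 ^ 2 + u2 * p + u4 ^ 2 + u4 * p + u6 ^ 2 + u6 * p +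
      u3 ^ 2 + u5 ^ 2 + u7 ^ 2 + u8 ^ 2 - u3 * (u2 + u4 + p) - u5 * (u4 + u6 + p) - u5 * u7 -
      u7 * u8 + u9 ^ 2 + u9 * q + 2 * u10 ^ 2 + 2 * u10 * r) +
      (6 * p ^ 2 + 2 * q ^ 2 + 4 * r ^ 2) := by
    unfold nm
    rw [hu0, hu1, hu2, hu3, hu4, hu5, hu6, hu7, hu8, hu9, hu10]
    ring
  rw [hn] at h8
  have h9 : (8 : ℤ) ∣ 6 * p ^ 2 + 2 * q ^ 2 + 4 * r ^ 2 :=
    (Int.dvd_add_right (Dvd.intro _ rfl)).1 h8
  have h10 := pqr hp hq hr h9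
  refine ⟨![u0, u1, u2, u3, u4, u5, u6, u7, u8, u9, u10], ?_⟩
  rcases h10 with ⟨rfl, rfl, rfl⟩ | ⟨rfl, rfl, rfl⟩
  · left
    rw [add_zero] at hu2 hu4 hu6 hu9 hu10
    exact forall11 hu0 hu1 hu2 hu3 hu4 hu5 hu6 hu7 hu8 hu9 hu10
  · right
    rw [← add_zero (2 * u0)] at hu0
    rw [← add_zero (2 * u1)] at hu1
    rw [← add_zero (2 * u3)] at hu3
    rw [← add_zero (2 * u5)] at hu5
    rw [← add_zero (2 * u7)] at hu7
    rw [← add_zero (2 * u8)] at hu8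
    exact forall11 hu0 hu1 hu2 hu3 hu4 hu5 hu6 hu7 hu8 hu9 hu10

theorem i_exc (hBAS : I_BAS) : I_EXC := by
  intro L hL hGL
  obtain ⟨a, hLa, hG'⟩ := hBAS 10 L _ hL.lat hGL
  have hG : ∀ i j, B (a i) (a j) = (g0 i j : ℤ) := by
    intro i j
    rw [hG' i j, ent_g0 i j]
  -- the glue vector
  obtain ⟨w, hw⟩ : ∃ w : V 10, w = (1 / 2 : ℝ) • ve a wv := ⟨_, rfl⟩
  have hw2 : (2 : ℝ) • w = ve a wv := by
    rw [hw, smul_smul]
    norm_num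
  have hLmem : ∀ x, x ∈ L ↔ ∃ z, x = ve a z := by
    intro x
    rw [hLa]
    exact mem_ve a x
  have hrw : ∀ j, ∃ m : ℤ, ro wv j = 2 * m := by
    obtain ⟨r0, r1, r2, r3, r4, r5, r6, r7, r8, r9, r10⟩ := rows wv
    refine forall11 ?_ ?_ ?_ ?_ ?_ ?_ ?_ ?_ ?_ ?_ ?_
    · rw [r0]; exact ⟨0, rfl⟩
    · rw [r1]; exact ⟨0, rfl⟩
    · rw [r2]; exact ⟨1, rfl⟩
    · rw [r3]; exact ⟨-1, rfl⟩
    · rw [r4]; exact ⟨1, rfl⟩
    · rw [r5]; exact ⟨-1, rfl⟩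
    · rw [r6]; exact ⟨1, rfl⟩
    · rw [r7]; exact ⟨0, rfl⟩
    · rw [r8]; exact ⟨0, rfl⟩
    · rw [r9]; exact ⟨1, rfl⟩
    · rw [r10]; exact ⟨0, rfl⟩
  have hwL : ∀ y ∈ L, ∃ k : ℤ, B w y = k := by
    intro y hy
    obtain ⟨z, rfl⟩ := (hLmem y).1 hy
    choose m hm using hrw
    refine ⟨∑ j, z j * m j, ?_⟩
    rw [hw, B_smul_left, B_ve_ve a hG]
    have h1 : ∑ j, z j * ro wv j = 2 * ∑ j, z j * m j := by
      rw [Finset.mul_sum]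
      refine Finset.sum_congr rfl fun j _ => ?_
      rw [hm j]
      ring
    rw [h1]
    push_cast
    ring
  have hww : B w w = 2 := by
    rw [hw, B_smul_left, B_smul_right, B_nm a hG]
    have h1 : nm wv = 8 := by decide
    rw [h1]
    norm_num
  let L' : Submodule ℤ (V 10) := L ⊔ Submodule.span ℤ {w}
  have hL'mem : ∀ x, x ∈ L' ↔ ∃ l ∈ L, ∃ k : ℤ, x = l + (k : ℝ) • w := by
    intro x
    change x ∈ L ⊔ Submodule.span ℤ {w} ↔ _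
    rw [Submodule.mem_sup]
    constructor
    · rintro ⟨l, hl, y, hy, rfl⟩
      obtain ⟨k, rfl⟩ := Submodule.mem_span_singleton.1 hy
      exact ⟨l, hl, k, by rw [Int.cast_smul_eq_zsmul]⟩
    · rintro ⟨l, hl, k, rfl⟩
      refine ⟨l, hl, _, ?_, rfl⟩
      rw [Int.cast_smul_eq_zsmul]
      exact Submodule.smul_mem _ _ (Submodule.mem_span_singleton_self w)
  have h2L : ∀ x ∈ L', (2 : ℝ) • x ∈ L := by
    intro x hx
    obtain ⟨l, hl, k, rfl⟩ := (hL'mem x).1 hx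
    rw [smul_add, smul_comm, hw2, ← ve_smul]
    refine L.add_mem ?_ ((hLmem _).2 ⟨_, rfl⟩)
    have : (2 : ℝ) • l = ((2 : ℤ) : ℝ) • l := by norm_num
    rw [this, Int.cast_smul_eq_zsmul]
    exact L.smul_mem _ hl
  have hint : ∀ x ∈ L', ∀ y ∈ L', ∃ k : ℤ, B x y = k := by
    intro x hx y hy
    obtain ⟨l, hl, k, rfl⟩ := (hL'mem x).1 hx
    obtain ⟨l', hl', k', rfl⟩ := (hL'mem y).1 hy
    obtain ⟨m1, hm1⟩ := hL.int l hl l' hl'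
    obtain ⟨m2, hm2⟩ := hwL l hl
    obtain ⟨m3, hm3⟩ := hwL l' hl'
    refine ⟨m1 + k' * m2 + k * m3 + 2 * k * k', ?_⟩
    rw [B_add_left, B_add_right, B_add_right, B_smul_left, B_smul_right, B_smul_right,
      B_smul_left, B_comm l w, hm1, hm2, hm3, hww]
    push_cast
    ring
  have heven : ∀ x ∈ L', ∃ k : ℤ, B x x = 2 * k := by
    intro x hx
    obtain ⟨l, hl, k, rfl⟩ := (hL'mem x).1 hx
    obtain ⟨m1, hm1⟩ := hL.even l hl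
    obtain ⟨m2, hm2⟩ := hwL l hl
    refine ⟨m1 + k * m2 + k * k, ?_⟩
    rw [B_add_left, B_add_right, B_add_right, B_smul_left, B_smul_right, B_smul_right,
      B_smul_left, B_comm l w, hm1, hm2, hww]
    push_cast
    ring
  have hlat : IsLat L' := by
    let a' : Module.Basis (Fin 11) ℝ (V 10) :=
      a.isUnitSMul (w := fun _ => (1 / 2 : ℝ)) (fun _ => isUnit_iff_ne_zero.2 (by norm_num))
    have ha' : ∀ i, a' i = (1 / 2 : ℝ) • a i := fun i => Module.Basis.isUnitSMul_apply _ i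
    have hve : ∀ z, ve a' z = (1 / 2 : ℝ) • ve a z := by
      intro z
      unfold ve
      rw [Finset.smul_sum]
      refine Finset.sum_congr rfl fun i _ => ?_
      rw [ha', smul_comm]
    refine H31.a_sub 10 (Submodule.span ℤ (Set.range a')) L' 2 ⟨a', rfl⟩ (by norm_num) ?_ ?_
    · intro x hx
      obtain ⟨z, hz⟩ := (hLmem _).1 (h2L x hx)
      rw [mem_ve]
      refine ⟨z, ?_⟩
      rw [hve, ← hz, smul_smul]
      norm_num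
    · intro x hx
      obtain ⟨z, rfl⟩ := (mem_ve a' x).1 hx
      rw [hve, smul_smul]
      have h1 : ((2 : ℕ) : ℝ) * (1 / 2) = 1 := by norm_num
      rw [h1, one_smul]
      exact (le_sup_left : L ≤ L') ((hLmem _).2 ⟨z, rfl⟩)
  refine ⟨L', ⟨hlat, hint, heven⟩, le_sup_left, ?_, ?_⟩
  · intro h
    have h1 : w ∈ L := by
      rw [← h]
      exact (le_sup_right : Submodule.span ℤ {w} ≤ L') (Submodule.mem_span_singleton_self w)
    obtain ⟨z, hz⟩ := (hLmem w).1 h1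
    have h2 : ve a wv = ve a ((2 : ℤ) • z) := by
      rw [ve_smul, ← hz, ← hw2]
      norm_num
    have h3 := congrFun (ve_inj a h2) 2
    have h4 : (1 : ℤ) = 2 * z 2 := h3
    omega
  · intro g hg hgL x hx
    -- characterization of the members
    have key : ∀ x, (2 : ℝ) • x ∈ L → (∀ y ∈ L, ∃ k : ℤ, B x y = k) →
        (∃ k : ℤ, B x x = 2 * k) → x ∈ L' := by
      intro x h1 h2 h3
      obtain ⟨z, hz⟩ := (hLmem _).1 h1
      have haL : ∀ j, a j ∈ L := by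
        intro j
        rw [hLa]
        exact Submodule.subset_span ⟨j, rfl⟩
      have h4 : ∀ j, (2 : ℤ) ∣ ro z j := by
        intro j
        obtain ⟨k, hk⟩ := h2 (a j) (haL j)
        refine ⟨k, ?_⟩
        have h5 := B_ve a hG z j
        rw [← hz, B_smul_left, hk] at h5
        exact_mod_cast h5.symm
      have h5 : (8 : ℤ) ∣ nm z := by
        obtain ⟨k, hk⟩ := h3
        refine ⟨k, ?_⟩
        have h6 := B_nm a hG z
        rw [← hz, B_smul_left, B_smul_right, hk] at h6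
        have h7 : (2 : ℝ) * (2 * (2 * k)) = ((8 * k : ℤ) : ℝ) := by
          push_cast
          ring
        rw [h7] at h6
        exact_mod_cast h6.symm
      obtain ⟨u, hu'⟩ := glue z h4 h5
      have hu : z = (2 : ℤ) • u ∨ z = (2 : ℤ) • u + wv := by
        rcases hu' with hu' | hu'
        · exact Or.inl (funext hu')
        · exact Or.inr (funext hu')
      have hx2 : x = (1 / 2 : ℝ) • ve a z := by
        rw [← hz, smul_smul]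
        norm_num
      rw [hL'mem]
      rcases hu with hu | hu
      · refine ⟨ve a u, (hLmem _).2 ⟨u, rfl⟩, 0, ?_⟩
        rw [hx2, hu, ve_smul, smul_smul]
        norm_num
      · refine ⟨ve a u, (hLmem _).2 ⟨u, rfl⟩, 1, ?_⟩
        rw [hx2, hu, ve_add, ve_smul, smul_add, smul_smul]
        have h6 : (1 / 2 : ℝ) * ((2 : ℤ) : ℝ) = 1 := by norm_num
        rw [h6, one_smul, Int.cast_one, one_smul, hw]
    refine key (g x) ?_ ?_ ?_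
    · rw [← map_smul]
      exact (hgL _).2 (h2L x hx)
    · intro y hy
      have h1 : g.symm y ∈ L := by
        rw [← hgL, LinearEquiv.apply_symm_apply]
        exact hy
      obtain ⟨k, hk⟩ := hint x hx _ ((le_sup_left : L ≤ L') h1)
      refine ⟨k, ?_⟩
      rw [← hk, ← hg x (g.symm y), LinearEquiv.apply_symm_apply]
    · obtain ⟨k, hk⟩ := heven x hx
      exact ⟨k, by rw [hg x x, hk]⟩

end

end Pool.Agent.CN2.H50
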