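import Pool.Agent.Helper25_CN2.Stmts
import Pool.Agent.Helper47_CON.Non

/-!
# Squad CN2: module K_SEA
-/

namespace Pool.Agent.CN2.H50

open Pool.Agent.H25Cong Pool.Agent.CON Pool.Agent.CN2

noncomputable section

/-- Every root of a component of rank at least two (with odd scale) has an odd product. -/
theorem exists_odd {M : Type} [AddCommGroup M] {b : M → M → ℤ} (hNON : E_NON) {C : Set M} {s : ℤ}
    (hb : PD b) (hC : Irr b C s) (hs : ¬ (2 : ℤ) ∣ s) (hR : Rk C 2) :
    ∀ β ∈ C, ∃ y ∈ C, ¬ (2 : ℤ) ∣ b β y := by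
  have h1 : {β | β ∈ C ∧ ∃ y ∈ C, ¬ (2 : ℤ) ∣ b β y} = C := by
    refine hC.conn _ (fun β hβ => hβ.1) ?_ ?_
    · obtain ⟨α, hα, β, hβ, h⟩ := hNON M b C s hb hC hR
      exact ⟨α, hα, β, hβ, by rw [h]; exact hs⟩
    · rintro γ ⟨hγ, y, hy, hy2⟩ δ hδ hδ2
      by_contra h0
      have h3 : δ ≠ γ := by
        rintro rfl
        exact hδ2 ⟨hδ, y, hy, hy2⟩
      have h4 : δ ≠ -γ := by
        rintro rfl
        refine hδ2 ⟨hδ, y, hy, ?_⟩
        rw [hb.neg_left, dvd_neg]
        exact hy2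
      refine hδ2 ⟨hδ, γ, hγ, ?_⟩
      rw [hb.symm]
      rcases H47.prod_cases hb hC hγ hδ h0 h3 h4 with h5 | h5
      · rw [h5]
        exact hs
      · rw [h5, dvd_neg]
        exact hs
  intro β hβ
  rw [← h1] at hβ
  exact hβ.2

theorem k_sea (hNEW : X_NEW) (hDEC : X_DEC) (hDIV : T_DIV) (hJ1 : E_J1) (hVAL : E_VAL)
    (hNON : E_NON) (hN2 : E_N2) (hRK : T_RK) : K_SEA := by
  classical
  intro M _ b k C s τ hb hCT hBad i0 i1 β α h01 hall hτ hs0 hs1 hβ hα
  have hI0 := hCT.irr i0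
  have hI1 := hCT.irr i1
  have hs1p := hI1.pos
  obtain ⟨k0, hk0, hk0'⟩ : ∃ k0, (k0 = 7 ∨ k0 = 8) ∧ τ i0 = .E k0 := by
    rcases hτ with h | h
    · exact ⟨7, Or.inl rfl, h⟩
    · exact ⟨8, Or.inr rfl, h⟩
  have hR2 : Rk (C i0) 2 := by
    rw [hRK M b (C i0) (s i0) (τ i0) hb hI0 (hCT.ty i0), hk0']
    change 2 ≤ k0
    omega
  have hdiv : DIVU b (AddSubgroup.closure (C i0)) 1 := by
    have h := hDIV M b (C i0) (s i0) k0 hb hI0 (hk0' ▸ hCT.ty i0) hk0
    rwa [hs0] at h
  have hββ : b β β = 2 := by rw [hI0.norm β hβ, hs0]; norm_num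
  have hαα : b α α = 2 * s i1 := hI1.norm α hα
  have hβα : b β α = 0 := hCT.orth i0 i1 h01 β hβ α hα
  have key : ∀ t ρ, NewR b (β + α) t ρ → (s i1 = 1 ∨ s i1 = 3) ∧ (s i1 = 3 →
      ∃ t0 ∈ AddSubgroup.closure (C i0), t = t0 + α ∨ t = t0 - α) := by
    intro t ρ ht
    let x : Fin k → M := fun i => if i = i0 then β else α
    have hu : (Finset.univ : Finset (Fin k)) = {i0, i1} := by
      ext i
      simpa using hall i
    have hsum : ∀ (A : Type) [AddCommMonoid A] (f : Fin k → A), ∑ i, f i = f i0 + f i1 := by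
      intro A _ f
      rw [hu, Finset.sum_pair h01]
    have hx0 : x i0 = β := if_pos rfl
    have hx1 : x i1 = α := if_neg h01.symm
    have hx : ∀ i, x i ∈ AddSubgroup.closure (C i) := by
      intro i
      rcases hall i with rfl | rfl
      · rw [hx0]
        exact AddSubgroup.subset_closure hβ
      · rw [hx1]
        exact AddSubgroup.subset_closure hα
    obtain ⟨T, hT1, hT2, hT3⟩ := hDEC M b k C s τ x t ρ hb hCT hx (by
      rw [hsum, hx0, hx1]
      exact ht)
    rw [hsum] at hT1 hT2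
    obtain ⟨⟨z0, hz0, hz0'⟩, hρ0, hρ4, hd0⟩ := hT3 i0
    obtain ⟨⟨z1, hz1, hz1'⟩, -, -, hd1⟩ := hT3 i1
    rw [hx0] at hz0' hd0
    rw [hx1] at hz1' hd1
    obtain ⟨r, hr⟩ : ∃ r : ℤ, ρ = 2 * r := ⟨ρ / 2, by omega⟩
    have hr2 : ¬ (2 : ℤ) ∣ r := by omega
    have hz0m : T i0 ∈ AddSubgroup.closure (C i0) := by
      rw [hz0']
      exact add_mem (AddSubgroup.subset_closure hβ) (AddSubgroup.zsmul_mem _ hz0 _)
    have hz1m : T i1 ∈ AddSubgroup.closure (C i1) := by
      rw [hz1']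
      exact add_mem (AddSubgroup.subset_closure hα) (AddSubgroup.zsmul_mem _ hz1 _)
    -- the first component
    obtain ⟨T', hT'm, hT'⟩ := hdiv (T i0) hz0m r hr2 (by
      intro y hy
      have h1 := hd0 ((2 : ℤ) • y) (AddSubgroup.zsmul_mem _ hy _) (by
        rw [hb.zsmul_right]
        exact Dvd.intro _ rfl)
      rw [hb.zsmul_right, hr] at h1
      rw [one_mul]
      exact Int.dvd_of_mul_dvd_mul_left (by norm_num) h1)
    obtain ⟨j, hj⟩ : ∃ j : ℤ, r = 2 * j + 1 := ⟨r / 2, by omega⟩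
    have hT'2 : T' = β + (2 : ℤ) • (z0 - j • T') := by
      have h1 : T i0 = T' + (2 : ℤ) • (j • T') := by
        rw [hT', hj, add_smul, one_smul, mul_smul, add_comm]
      rw [hz0'] at h1
      rw [smul_sub, ← add_sub_assoc, h1, add_sub_cancel_right]
    have hT'n : b T' T' % 4 = 2 := by
      have h1 : b T' T' = b β β + 4 * b β (z0 - j • T') +
          4 * b (z0 - j • T') (z0 - j • T') := by
        nth_rewrite 1 [hT'2]
        nth_rewrite 2 [hT'2]
        rw [hb.add_left, hb.add_right, hb.add_right, hb.zsmul_left, hb.zsmul_right,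
          hb.zsmul_left, hb.zsmul_right, hb.symm (z0 - j • T') β]
        ring
      rw [h1, hββ]
      omega
    have hT'0 : 2 ≤ b T' T' := by
      have := hb.nonneg T'
      omega
    have hT0n : b (T i0) (T i0) = r ^ 2 * b T' T' := by
      rw [hT', hb.zsmul_left, hb.zsmul_right]
      ring
    -- the second component
    have hT1n : ρ ≤ b (T i1) (T i1) := by
      have h1 := hJ1 M b (C i1) α hb (AddSubgroup.subset_closure hα)
        ((hN2 M b (C i1) (s i1) hb hI1).1 α hα) z1 hz1 ρ hρ0 hρ4 (by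
          rw [← hz1']
          exact hd1)
      rw [← hz1', one_mul] at h1
      exact h1
    have hT1d : 2 * s i1 ∣ b (T i1) (T i1) := (hVAL M b (C i1) (s i1) hb hI1 _ hz1m).2
    rw [hT0n, hr] at hT2
    rw [hr] at hT1n
    have hr0 : 0 < r := by omega
    have hr3 : r ≤ 3 := by
      have h1 : r * (2 * r) ≤ r * 6 := by nlinarith
      have h2 := le_of_mul_le_mul_left h1 hr0
      omega
    have hval : b (T i1) (T i1) = 2 ∨ b (T i1) (T i1) = 6 := by
      have h1 : r = 1 ∨ r = 3 := by omega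
      rcases h1 with rfl | rfl
      · have h2 : b T' T' < 8 := by omega
        have h3 : b T' T' = 2 ∨ b T' T' = 6 := by omega
        rcases h3 with h3 | h3 <;> rw [h3] at hT2 <;> omega
      · have h2 : b T' T' < 3 := by omega
        have h3 : b T' T' = 2 := by omega
        rw [h3] at hT2
        omega
    have hs3 : s i1 = 1 ∨ s i1 = 3 := by
      rcases hval with h1 | h1
      · rw [h1] at hT1d
        obtain ⟨w, hw⟩ := hT1d
        left
        have h2 : s i1 * w = 1 := by linarith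
        rcases Int.mul_eq_one_iff_eq_one_or_neg_one.1 h2 with h3 | h3
        · exact h3.1
        · omega
      · rw [h1] at hT1d
        have h2 : s i1 ∣ 3 := by
          obtain ⟨w, hw⟩ := hT1d
          exact ⟨w, by linarith⟩
        have h3 := Int.le_of_dvd (by norm_num) h2
        omega
    refine ⟨hs3, fun h3 => ⟨T i0, hz0m, ?_⟩⟩
    have h6 : b (T i1) (T i1) = 6 := by
      rcases hval with h1 | h1
      · rw [h1, h3] at hT1d
        norm_num at hT1d
      · exact h1
    rw [h3] at hαα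
    have hm : (3 : ℤ) ∣ b (T i1) α := by
      have := (hVAL M b (C i1) (s i1) hb hI1 _ hz1m).1 α (AddSubgroup.subset_closure hα)
      rwa [h3] at this
    have hzz : (6 : ℤ) ∣ b z1 z1 := by
      have := (hVAL M b (C i1) (s i1) hb hI1 _ hz1).2
      rwa [h3] at this
    have hz : (2 : ℤ) • z1 = T i1 - α := by
      rw [hz1', add_sub_cancel_left]
    have h7 : 4 * b z1 z1 = 12 - 2 * b (T i1) α := by
      have h8 : b ((2 : ℤ) • z1) ((2 : ℤ) • z1) = 4 * b z1 z1 := by
        rw [hb.zsmul_left, hb.zsmul_right]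
        ring
      rw [← h8, hz, hb.sub_left, hb.sub_right, hb.sub_right, h6, hαα, hb.symm α (T i1)]
      ring
    have h9 := hb.cs (T i1) α
    rw [h6, hαα] at h9
    have h10 : -6 ≤ b (T i1) α := by nlinarith
    have h11 : b (T i1) α ≤ 6 := by nlinarith
    have h12 : b (T i1) α = 6 ∨ b (T i1) α = -6 := by omega
    rcases h12 with h12 | h12
    · left
      have h13 : T i1 - α = 0 := hb.eq_zero (by
        rw [hb.sub_left, hb.sub_right, hb.sub_right, h6, hαα, hb.symm α (T i1), h12]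
        norm_num)
      rw [hT1, sub_eq_zero.1 h13]
    · right
      have h13 : T i1 + α = 0 := hb.eq_zero (by
        rw [hb.add_left, hb.add_right, hb.add_right, h6, hαα, hb.symm α (T i1), h12]
        norm_num)
      rw [hT1, eq_neg_of_add_eq_zero_left h13, sub_eq_add_neg]
  obtain ⟨y, hy, hy2⟩ := exists_odd hNON hb hI0 (by rw [hs0]; norm_num) hR2 β hβ
  obtain ⟨t, ρ, ht⟩ := hNEW M b (β + α) hb hBad (by
    rw [hb.add_left, hb.add_right, hb.add_right, hββ, hαα, hb.symm α β, hβα]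
    omega) ⟨y, by
      rw [hb.add_left, hb.symm α y, hCT.orth i0 i1 h01 y hy α hα, add_zero]
      exact hy2⟩
  rcases (key t ρ ht).1 with h1 | h1
  · exact Or.inl h1
  · exact Or.inr ⟨h1, fun t ρ ht => (key t ρ ht).2 h1⟩

end

end Pool.Agent.CN2.H50
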