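import Pool.Agent.Helper25_CN2.Stmts
import Pool.Agent.Helper60_CON.GH5

/-!
# Squad CN2: module T_HE5 (type E_6)
-/

namespace Pool.Agent.CN2.H50

open Pool.Agent.H25Cong Pool.Agent.CON Pool.Agent.CN2 Pool.Agent.CON.H33 Pool.Agent.CON.H60

noncomputable section

variable {M : Type} [AddCommGroup M] {b : M → M → ℤ} {C : Set M} {s : ℤ}

theorem two_inj (hb : PD b) {x y : M} (h : (2 : ℤ) • x = (2 : ℤ) • y) : x = y := by
  rw [← sub_eq_zero, ← smul_sub] at h
  exact sub_eq_zero.1 (hb.zsmul_eq_zero (by norm_num) h)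

theorem smul_pm {c : ℤ} (hc : c = 1 ∨ c = -1) (x : M) : c • x = x ∨ c • x = -x := by
  rcases hc with rfl | rfl
  · exact Or.inl (one_smul _ _)
  · exact Or.inr (neg_one_smul _ _)

/-- Change of signs of a frame. -/
theorem DFr_sign (hb : PD b) (hC : Irr b C s) {k : ℕ} {F : Fin k → M} (hF : DFr b C s k F)
    {η : Fin k → ℤ} (hη : ∀ i, η i = 1 ∨ η i = -1) : DFr b C s k fun i => η i • F i := by
  obtain ⟨h1, h2, h3⟩ := hF
  refine ⟨fun i => ?_, fun i j hij => ?_, fun i j hij => ?_⟩
  · rw [hb.zsmul_left, hb.zsmul_right, h1]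
    rcases hη i with h | h <;> rw [h] <;> ring
  · rw [hb.zsmul_left, hb.zsmul_right, h2 i j hij]
    ring
  · obtain ⟨⟨w, hw, hw2⟩, ⟨v, hv, hv2⟩⟩ := h3 i j hij
    change (∃ w ∈ C, (2 : ℤ) • w = η i • F i + η j • F j) ∧
      ∃ w ∈ C, (2 : ℤ) • w = η i • F i - η j • F j
    rcases smul_pm (hη i) (F i) with h4 | h4 <;> rcases smul_pm (hη j) (F j) with h5 | h5 <;>
      rw [h4, h5]
    · exact ⟨⟨w, hw, hw2⟩, ⟨v, hv, hv2⟩⟩
    · exact ⟨⟨v, hv, by rw [hv2, sub_eq_add_neg]⟩, ⟨w, hw, by rw [hw2, sub_neg_eq_add]⟩⟩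
    · exact ⟨⟨-v, neg_root hC hv, by rw [smul_neg, hv2]; abel⟩,
        ⟨-w, neg_root hC hw, by rw [smul_neg, hw2]; abel⟩⟩
    · exact ⟨⟨-w, neg_root hC hw, by rw [smul_neg, hw2]; abel⟩,
        ⟨-v, neg_root hC hv, by rw [smul_neg, hv2]; abel⟩⟩

/-- The difference of two roots with `2 (β - β') = η i F i + η j F j` is a root of type D. -/
theorem flip_diff (hb : PD b) (hC : Irr b C s) {k : ℕ} {F : Fin k → M} (hF : DFr b C s k F)
    {η : Fin k → ℤ} (hη : ∀ i, η i = 1 ∨ η i = -1) {i j : Fin k} (hij : i ≠ j) {x : M}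
    (hx : (2 : ℤ) • x = η i • F i + η j • F j) : x ∈ C ∧ InD F x := by
  obtain ⟨⟨w, hw, hw2⟩, ⟨v, hv, hv2⟩⟩ := hF.2.2 i j hij
  rcases smul_pm (hη i) (F i) with h4 | h4 <;> rcases smul_pm (hη j) (F j) with h5 | h5 <;>
    rw [h4, h5] at hx
  · refine ⟨?_, i, j, hij, Or.inl hx⟩
    rw [two_inj hb (hx.trans hw2.symm)]
    exact hw
  · refine ⟨?_, i, j, hij, Or.inr (Or.inl (by rw [hx, sub_eq_add_neg]))⟩
    have : x = v := two_inj hb (by rw [hx, hv2, sub_eq_add_neg])
    rw [this]
    exact hv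
  · refine ⟨?_, j, i, hij.symm, Or.inr (Or.inl (by rw [hx]; abel))⟩
    have : x = -v := two_inj hb (by rw [hx, smul_neg, hv2]; abel)
    rw [this]
    exact neg_root hC hv
  · refine ⟨?_, i, j, hij, Or.inr (Or.inr (by rw [hx]; abel))⟩
    have : x = -w := two_inj hb (by rw [hx, smul_neg, hw2]; abel)
    rw [this]
    exact neg_root hC hw

theorem flipsD (hFl : G_FLP) (hb : PD b) (hC : Irr b C s) {k : ℕ} {F : Fin k → M}
    (hF : DFr b C s k F) {ε : Fin k → ℤ} (hε : ∀ i, ε i = 1 ∨ ε i = -1) :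
    ∀ (n : ℕ) (β : M) (η : Fin k → ℤ), (Finset.univ.filter fun i => η i ≠ ε i).card ≤ n →
      β ∈ C → (∀ i, η i = 1 ∨ η i = -1) → (∀ i, b β (F i) = η i * s) →
      ∏ i, η i = ∏ i, ε i →
      ∃ β' ∈ C, (∀ i, b β' (F i) = ε i * s) ∧
        β - β' ∈ AddSubgroup.closure {γ | γ ∈ C ∧ InD F γ} := by
  intro n
  induction n with
  | zero =>
    intro β η hcard hβ hη hβF _
    have hall : ∀ i, η i = ε i := by
      intro i
      by_contra hne
      have : i ∈ Finset.univ.filter fun i => η i ≠ ε i := by simp [hne]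
      have := Finset.card_pos.mpr ⟨i, this⟩
      omega
    exact ⟨β, hβ, fun i => by rw [hβF, hall], by rw [sub_self]; exact zero_mem _⟩
  | succ n ih =>
    intro β η hcard hβ hη hβF hprod
    by_cases hall : ∀ i, η i = ε i
    · exact ⟨β, hβ, fun i => by rw [hβF, hall], by rw [sub_self]; exact zero_mem _⟩
    push Not at hall
    obtain ⟨i, hi⟩ := hall
    have hj : ∃ j, j ≠ i ∧ η j ≠ ε j := by
      by_contra hcon
      push Not at hcon
      have h1 : ∏ l, η l = η i * ∏ l ∈ Finset.univ.erase i, η l :=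
        (Finset.mul_prod_erase _ _ (Finset.mem_univ i)).symm
      have h2 : ∏ l, ε l = ε i * ∏ l ∈ Finset.univ.erase i, ε l :=
        (Finset.mul_prod_erase _ _ (Finset.mem_univ i)).symm
      have h3 : ∏ l ∈ Finset.univ.erase i, η l = ∏ l ∈ Finset.univ.erase i, ε l := by
        refine Finset.prod_congr rfl fun l hl => hcon l ?_
        exact (Finset.mem_erase.mp hl).1
      rw [h1, h2, h3] at hprod
      have h4 : ∏ l ∈ Finset.univ.erase i, ε l ≠ 0 := by
        rw [Finset.prod_ne_zero_iff]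
        intro l _
        rcases hε l with h | h <;> rw [h] <;> norm_num
      exact hi (mul_right_cancel₀ h4 hprod)
    obtain ⟨j, hji, hj⟩ := hj
    obtain ⟨β₁, hβ₁, e₁, hβ₁F⟩ := hFl M b C s k F β η i j hb hC hF hβ hη hβF (Ne.symm hji)
    have hη' : ∀ l, (if l = i ∨ l = j then - η l else η l) = 1 ∨
        (if l = i ∨ l = j then - η l else η l) = -1 := by
      intro l
      rcases hη l with h | h <;> split_ifs <;> simp [h]
    have hprod' : ∏ l, (if l = i ∨ l = j then - η l else η l) = ∏ l, ε l := by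
      rw [← hprod]
      have e1 : ∀ l, (if l = i ∨ l = j then - η l else η l) =
          (if l ∈ ({i, j} : Finset (Fin k)) then (-1 : ℤ) else 1) * η l := by
        intro l
        by_cases hl : l = i ∨ l = j
        · rw [if_pos hl, if_pos (by simpa using hl)]; ring
        · rw [if_neg hl, if_neg (by simpa using hl)]; ring
      rw [Finset.prod_congr rfl fun l _ => e1 l, Finset.prod_mul_distrib, Finset.prod_ite_mem,
        Finset.univ_inter, Finset.prod_pair (Ne.symm hji)]
      norm_num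
    have hcard' : (Finset.univ.filter fun l =>
        (if l = i ∨ l = j then - η l else η l) ≠ ε l).card ≤ n := by
      have hsub : (Finset.univ.filter fun l =>
          (if l = i ∨ l = j then - η l else η l) ≠ ε l) ⊆
          (Finset.univ.filter fun l => η l ≠ ε l).erase i := by
        intro l hl
        rw [Finset.mem_filter] at hl
        rw [Finset.mem_erase, Finset.mem_filter]
        by_cases hli : l = i
        · exfalso
          apply hl.2
          rw [if_pos (Or.inl hli), hli]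
          rcases hη i with h | h <;> rcases hε i with h' | h' <;> rw [h, h'] <;> rw [h, h'] at hi
          · exact absurd rfl hi
          · norm_num
          · exact absurd rfl hi
        · by_cases hlj : l = j
          · exact ⟨hli, Finset.mem_univ _, by rw [hlj]; exact hj⟩
          · rw [if_neg (by simp [hli, hlj])] at hl
            exact ⟨hli, hl⟩
      have h1 := Finset.card_le_card hsub
      rw [Finset.card_erase_of_mem (by simp [hi])] at h1
      omega
    obtain ⟨β', hβ', hβ'F, hspan⟩ := ih β₁ _ hcard' hβ₁ hη' hβ₁F hprod'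
    refine ⟨β', hβ', hβ'F, ?_⟩
    have e2 : β - β' = (β₁ - β') + (β - β₁) := by abel
    rw [e2]
    refine add_mem hspan (AddSubgroup.subset_closure ?_)
    refine flip_diff hb hC hF hη (Ne.symm hji) ?_
    rw [smul_sub, e₁]
    abel

/-- A root with the same signs is equal. -/
theorem same5 (hE : G_EXT) (hFl : G_FLP) (hb : PD b) (hC : Irr b C s) {F : Fin 5 → M}
    (hF : DFr b C s 5 F) (hmax : MaxD b C s 5) {α : M} (hα : α ∈ C) {ε : Fin 5 → ℤ}
    (hε : ∀ i, ε i = 1 ∨ ε i = -1) (hαF : ∀ i, b α (F i) = ε i * s) :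
    ∀ β ∈ C, (∀ i, b β (F i) = ε i * s) → β = α := by
  have hs := hC.pos
  obtain ⟨hF1, hF2, hF3⟩ := id hF
  have hPα := norm_proj5 hb hC hF hα hε hαF
  have hεε : ∀ i, ε i * ε i = 1 := by
    intro i
    rcases hε i with h | h <;> rw [h] <;> norm_num
  have hno : ∀ β ∈ C, ∀ i0, (b β (F i0) = 2 * s ∨ b β (F i0) = - (2 * s)) →
      (∀ j, j ≠ i0 → b β (F j) = 0) → False := by
    intro β hβ i0 h1 h2
    obtain ⟨F', hF'⟩ := hE M b C s 5 F β i0 hb hC (by norm_num) hF hβ h1 h2
    exact hmax 6 (by norm_num) F' hF'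
  have hPF : ∀ x ∈ Submodule.span ℤ (Set.range F), b ((4 : ℤ) • α - ∑ i, ε i • F i) x = 0 := by
    intro x hx
    induction hx using Submodule.span_induction with
    | mem x hx =>
      obtain ⟨j, rfl⟩ := hx
      rw [hb.sub_left, hb.zsmul_left, hαF, hb.sum_left, Finset.sum_eq_single j]
      · rw [hb.zsmul_left, hF1]; ring
      · intro i _ hi
        rw [hb.zsmul_left, hF2 i j hi, mul_zero]
      · intro h; exact absurd (Finset.mem_univ _) h
    | zero => exact hb.zero_right _
    | add u v _ _ hu hv => rw [hb.add_right, hu, hv, add_zero]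
    | smul c u _ hu => rw [hb.zsmul_right, hu, mul_zero]
  intro β hβ hβF
  have h1 := inner_proj hb hF1 hF2 hαF hβF
  have h6 : ∑ i, ε i * ε i = 5 := by simp [hεε]
  rw [h6] at h1
  have hPβ := norm_proj5 hb hC hF hβ hε hβF
  obtain ⟨k, hk⟩ := hC.dvd α hα β hβ
  rw [hk] at h1
  have hcs := hb.cs ((4 : ℤ) • α - ∑ i, ε i • F i) ((4 : ℤ) • β - ∑ i, ε i • F i)
  rw [hPα, hPβ, h1] at hcs
  have h2 : (16 * k - 20) ^ 2 ≤ 144 := by
    have : s ^ 2 * ((16 * k - 20) ^ 2) ≤ s ^ 2 * 144 := by nlinarith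
    exact le_of_mul_le_mul_left this (by positivity)
  have h3 : k = 1 ∨ k = 2 := by
    have : 1 ≤ k := by nlinarith
    have : k ≤ 2 := by nlinarith
    omega
  rcases h3 with h3 | h3
  · exfalso
    set ε' : Fin 5 → ℤ := fun i => if i = 0 then ε i else - ε i with hε'
    have hε'1 : ∀ i, ε' i = 1 ∨ ε' i = -1 := by
      intro i
      by_cases hi : i = 0
      · simp only [hε', if_pos hi]
        exact hε i
      · simp only [hε', if_neg hi]
        rcases hε i with h | h <;> rw [h] <;> norm_num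
    have hprod' : ∏ i, ε i = ∏ i, ε' i := by
      simp only [Fin.prod_univ_five, hε']
      norm_num [Fin.ext_iff]
    obtain ⟨β', hβ', hβ'F, hsp⟩ := flips hFl hb hC hF hε'1 _ β ε le_rfl hβ hε hβF hprod'
    have h4 := hPF _ hsp
    rw [hb.sub_right, hb.zsmul_right, hb.zsmul_right] at h4
    have e1 : ∀ γ : M, ∀ η : Fin 5 → ℤ, (∀ i, b γ (F i) = η i * s) →
        b ((4 : ℤ) • α - ∑ i, ε i • F i) γ = 4 * b α γ - s * ∑ i, ε i * η i := by
      intro γ η hγ
      rw [hb.sub_left, hb.zsmul_left, hb.sum_left, Finset.mul_sum]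
      refine congrArg _ ?_
      refine Finset.sum_congr rfl fun i _ => ?_
      rw [hb.zsmul_left, hb.symm, hγ]; ring
    rw [e1 β ε hβF, e1 β' ε' hβ'F, h6, hk, h3] at h4
    have h5 : ∑ i, ε i * ε' i = -3 := by
      simp only [Fin.sum_univ_five, hε']
      norm_num [Fin.ext_iff, hεε]
    rw [h5] at h4
    have h7 : b α β' = -s := by linarith
    have h8 : α + β' ∈ C := by
      have := hC.refl β' hβ' α hα (-1) (by rw [hb.symm, h7]; ring)
      rwa [neg_one_smul, sub_neg_eq_add] at this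
    refine hno (α + β') h8 0 ?_ ?_
    · rw [hb.add_left, hαF, hβ'F]
      rcases hε 0 with h' | h'
      · left; simp [hε', h']; ring
      · right; simp [hε', h']; ring
    · intro j hj
      rw [hb.add_left, hαF, hβ'F]
      simp [hε', hj]
  · have h4 : α - β = 0 := by
      apply hb.eq_zero
      rw [hb.sub_left, hb.sub_right, hb.sub_right, hb.symm β α, hk, h3, hC.norm α hα,
        hC.norm β hβ]
      linarith
    rw [sub_eq_zero] at h4
    exact h4.symm

theorem t_he5 (hE : G_EXT) (hT : G_TYP) (hFl : G_FLP) : T_HE 5 6 := by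
  intro M _ b C s F₀ α hb hC hF₀ hmax hα ⟨ε₀, hε₀, hαF₀⟩
  have hs := hC.pos
  -- normalization of the signs
  let F : Fin 5 → M := fun i => (-ε₀ i) • F₀ i
  have hF : DFr b C s 5 F := DFr_sign hb hC hF₀ (η := fun i => -ε₀ i) (fun i => by
    rcases hε₀ i with h | h <;> rw [h] <;> norm_num)
  have hαF : ∀ i, b α (F i) = -s := by
    intro i
    change b α ((-ε₀ i) • F₀ i) = -s
    rw [hb.zsmul_right, hαF₀]
    rcases hε₀ i with h | h <;> rw [h] <;> ring
  have hno : ∀ β ∈ C, ∀ i0, (b β (F i0) = 2 * s ∨ b β (F i0) = - (2 * s)) →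
      (∀ j, j ≠ i0 → b β (F j) = 0) → False := by
    intro β hβ i0 h1 h2
    obtain ⟨F', hF'⟩ := hE M b C s 5 F β i0 hb hC (by norm_num) hF hβ h1 h2
    exact hmax 6 (by norm_num) F' hF'
  -- all the roots are of type D or half integral
  have hD : {x | x ∈ C ∧ (InD F x ∨ Half b s F x)} = C := by
    refine hC.conn _ (fun x hx => hx.1) ⟨α, hα, Or.inr ⟨fun _ => -1, fun _ => Or.inr rfl,
      fun i => by rw [hαF]; ring⟩⟩ ?_
    rintro x ⟨hx, hxD⟩ y hy hyD
    rcases hT M b C s 5 F y hb hC (by norm_num) hF hy with h | h | h | h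
    · rcases hxD with hxD | ⟨η, hη, hxF⟩
      · obtain ⟨i, j, -, h1⟩ := hxD
        have h2 : 2 * b x y = 0 := by
          rw [← hb.zsmul_left]
          rcases h1 with h1 | h1 | h1 <;> rw [h1]
          · rw [hb.add_left, hb.symm, h i, hb.symm, h j, add_zero]
          · rw [hb.sub_left, hb.symm, h i, hb.symm, h j, sub_zero]
          · rw [hb.neg_left, hb.add_left, hb.symm, h i, hb.symm, h j, add_zero, neg_zero]
        omega
      · obtain ⟨k, hk⟩ := hC.dvd y hy x hx
        have hrefl := hC.refl y hy x hx k (by rw [hk]; ring)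
        have h1 : ∀ i, b (x - k • y) (F i) = η i * s := by
          intro i
          rw [hb.sub_left, hb.zsmul_left, h i, hxF]; ring
        have h2 := same5 hE hFl hb hC hF hmax hx hη hxF _ hrefl h1
        have h3 : k • y = 0 := sub_eq_self.mp h2
        rw [hb.symm, hk]
        by_cases hk0 : k = 0
        · rw [hk0, mul_zero]
        · exact absurd (hb.zsmul_eq_zero hk0 h3) (by
            intro h0
            have := hC.norm y hy
            rw [h0, hb.zero_left] at this
            omega)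
    · exact absurd ⟨hy, Or.inl h⟩ hyD
    · obtain ⟨i0, h1, h2⟩ := h
      exact (hno y hy i0 h1 h2).elim
    · exact absurd ⟨hy, Or.inr h.2⟩ hyD
  -- the half integral roots
  have hsub : AddSubgroup.closure {γ | γ ∈ C ∧ InD F γ} ≤
      AddSubgroup.closure ({β | β ∈ C ∧ InD F β} ∪ {α}) :=
    AddSubgroup.closure_mono Set.subset_union_left
  have hαG : α ∈ AddSubgroup.closure ({β | β ∈ C ∧ InD F β} ∪ {α}) :=
    AddSubgroup.subset_closure (Or.inr rfl)
  have key : ∀ β ∈ C, ∀ η : Fin 5 → ℤ, (∀ i, η i = 1 ∨ η i = -1) →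
      (∀ i, b β (F i) = η i * s) → ∏ i, η i = ∏ _i : Fin 5, (-1 : ℤ) →
      β ∈ AddSubgroup.closure ({β | β ∈ C ∧ InD F β} ∪ {α}) := by
    intro β hβ η hη hβF h
    obtain ⟨β', hβ', hβ'F, hsp⟩ := flipsD hFl hb hC hF (ε := fun _ => -1) (fun _ => Or.inr rfl)
      _ β η le_rfl hβ hη hβF h
    have h1 := same5 hE hFl hb hC hF hmax hα (ε := fun _ => -1) (fun _ => Or.inr rfl)
      (fun i => by rw [hαF]; ring) β' hβ' hβ'F
    rw [h1] at hsp
    have h2 := add_mem (hsub hsp) hαG
    rwa [sub_add_cancel] at h2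
  refine ⟨Or.inl rfl, F, α, hα, hF, hαF, fun x hx => ?_⟩
  have hle : AddSubgroup.closure C ≤ AddSubgroup.closure ({β | β ∈ C ∧ InD F β} ∪ {α}) := by
    rw [AddSubgroup.closure_le]
    intro x hx
    rw [← hD] at hx
    obtain ⟨hx, h | ⟨η, hη, hxF⟩⟩ := hx
    · exact AddSubgroup.subset_closure (Or.inl ⟨hx, h⟩)
    · have h1 : ∏ i, η i = 1 ∨ ∏ i, η i = -1 := by
        have : (∏ i, η i) * (∏ i, η i) = 1 := by
          rw [← Finset.prod_mul_distrib]
          apply Finset.prod_eq_one
          intro i _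
          rcases hη i with h | h <;> rw [h] <;> norm_num
        exact mul_self_eq_one_iff.mp this
      rcases h1 with h1 | h1
      · have h2 := key (-x) (neg_root hC hx) (fun i => - η i)
          (fun i => by rcases hη i with h | h <;> rw [h] <;> norm_num)
          (fun i => by rw [hb.neg_left, hxF]; ring)
          (by
            simp only [Fin.prod_univ_five] at h1 ⊢
            linarith)
        exact neg_mem_iff.1 h2
      · refine key x hx η hη hxF ?_
        rw [h1]
        simp [Fin.prod_univ_five]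
  exact hle hx

end

end Pool.Agent.CN2.H50
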