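import Pool.Agent.Helper25_CN2.Stmts

/-!
# Squad CN2: module T_DIV
-/

namespace Pool.Agent.CN2.H50

open Pool.Agent.H25Cong Pool.Agent.CON Pool.Agent.CN2

noncomputable section

/-- The adjugate of the Cartan matrix of E_7. -/
def a7 : List (List ℤ) := [[3, 4, 5, 6, 3, 4, 2], [4, 8, 10, 12, 6, 8, 4], [5, 10, 15, 18, 9, 12, 6],
  [6, 12, 18, 24, 12, 16, 8], [3, 6, 9, 12, 7, 8, 4], [4, 8, 12, 16, 8, 12, 6],
  [2, 4, 6, 8, 4, 6, 4]]

/-- The inverse of the Cartan matrix of E_8. -/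
def a8 : List (List ℤ) := [[2, 3, 4, 5, 6, 3, 4, 2], [3, 6, 8, 10, 12, 6, 8, 4],
  [4, 8, 12, 15, 18, 9, 12, 6], [5, 10, 15, 20, 24, 12, 16, 8], [6, 12, 18, 24, 30, 15, 20, 10],
  [3, 6, 9, 12, 15, 8, 10, 5], [4, 8, 12, 16, 20, 10, 14, 7], [2, 4, 6, 8, 10, 5, 7, 4]]

theorem e7 : ∀ i < 7, ∀ l < 7, ∑ j ∈ Finset.range 7, cE 7 i j * ent a7 j l =
    if i = l then 2 else 0 := by decide +kernel

theorem e8 : ∀ i < 8, ∀ l < 8, ∑ j ∈ Finset.range 8, cE 8 i j * ent a8 j l =
    if i = l then 1 else 0 := by decide +kernel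

theorem ent_mat (m : ℕ) (f : ℕ → ℕ → ℤ) {i j : ℕ} (hi : i < m) (hj : j < m) :
    ent (mat m f) i j = f i j := by
  have h1 : (mat m f).getD i [] = (List.range m).map fun j => f i j := by
    unfold mat
    rw [List.getD_eq_getElem _ _ (by rw [List.length_map, List.length_range]; exact hi),
      List.getElem_map, List.getElem_range]
  unfold ent
  rw [h1, List.getD_eq_getElem _ _ (by rw [List.length_map, List.length_range]; exact hj),
    List.getElem_map, List.getElem_range]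

theorem length_mat (m : ℕ) (f : ℕ → ℕ → ℤ) : (mat m f).length = m := by
  unfold mat
  rw [List.length_map, List.length_range]

section

variable {M : Type} [AddCommGroup M]

theorem mem_range (c : ℕ → M) (m : ℕ) (x : M)
    (hx : x ∈ AddSubgroup.closure (c '' {i | i < m})) :
    ∃ z : ℕ → ℤ, x = ∑ i ∈ Finset.range m, z i • c i := by
  classical
  refine AddSubgroup.closure_induction (p := fun x _ => ∃ z : ℕ → ℤ,
    x = ∑ i ∈ Finset.range m, z i • c i) ?_ ?_ ?_ ?_ hx
  · rintro _ ⟨i, hi, rfl⟩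
    refine ⟨fun j => if j = i then 1 else 0, ?_⟩
    rw [Finset.sum_eq_single_of_mem i (Finset.mem_range.2 hi)]
    · simp
    · intro j _ hj
      simp [hj]
  · exact ⟨0, by simp⟩
  · rintro _ _ _ _ ⟨z, rfl⟩ ⟨z', rfl⟩
    refine ⟨z + z', ?_⟩
    rw [← Finset.sum_add_distrib]
    refine Finset.sum_congr rfl fun i _ => ?_
    rw [Pi.add_apply, add_smul]
  · rintro _ _ ⟨z, rfl⟩
    refine ⟨-z, ?_⟩
    rw [← Finset.sum_neg_distrib]
    refine Finset.sum_congr rfl fun i _ => ?_
    rw [Pi.neg_apply, neg_smul]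

theorem b_zero_left {b : M → M → ℤ} (h : PD b) (y : M) : b 0 y = 0 := by
  have := h.add_left 0 0 y
  rw [add_zero] at this
  linarith

/-- The form as a homomorphism. -/
def bh {b : M → M → ℤ} (h : PD b) (y : M) : M →+ ℤ where
  toFun x := b x y
  map_zero' := b_zero_left h y
  map_add' x x' := h.add_left x x' y

theorem b_sum {b : M → M → ℤ} (h : PD b) {ι : Type} (s : Finset ι) (z : ι → ℤ) (c : ι → M)
    (y : M) : b (∑ i ∈ s, z i • c i) y = ∑ i ∈ s, z i * b (c i) y := by
  have h1 : b (∑ i ∈ s, z i • c i) y = bh h y (∑ i ∈ s, z i • c i) := rfl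
  rw [h1, map_sum]
  refine Finset.sum_congr rfl fun i _ => ?_
  rw [map_zsmul, smul_eq_mul]
  rfl

/-- The general argument, with an adjugate matrix of odd or even determinant `D ∈ {1, 2}`. -/
theorem div_aux {b : M → M → ℤ} (h : PD b) (S : AddSubgroup M) (s : ℤ) (hs : s ≠ 0) (k : ℕ)
    (f g : ℕ → ℕ → ℤ) (D : ℤ) (hD : D = 1 ∨ D = 2)
    (hfg : ∀ i < k, ∀ l < k, ∑ j ∈ Finset.range k, f i j * g j l = if i = l then D else 0)
    (c : ℕ → M) (hc : ∀ i < k, c i ∈ S)
    (hgen : ∀ x ∈ S, x ∈ AddSubgroup.closure (c '' {i | i < k}))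
    (hb : ∀ i < k, ∀ j < k, b (c i) (c j) = s * f i j) : DIVU b S s := by
  intro t ht r hr hdiv
  obtain ⟨z, hz⟩ := mem_range c k t (hgen t ht)
  have h1 : ∀ j < k, r ∣ ∑ i ∈ Finset.range k, z i * f i j := by
    intro j hj
    obtain ⟨w, hw⟩ := hdiv (c j) (hc j hj)
    rw [hz, b_sum h] at hw
    have h2 : ∑ i ∈ Finset.range k, z i * b (c i) (c j) =
        s * ∑ i ∈ Finset.range k, z i * f i j := by
      rw [Finset.mul_sum]
      refine Finset.sum_congr rfl fun i hi => ?_
      rw [hb i (Finset.mem_range.1 hi) j hj]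
      ring
    rw [h2, mul_assoc] at hw
    exact ⟨w, mul_left_cancel₀ hs hw⟩
  have h3 : ∀ l < k, r ∣ z l * D := by
    intro l hl
    have h4 : ∑ j ∈ Finset.range k, (∑ i ∈ Finset.range k, z i * f i j) * g j l = z l * D := by
      have h5 : ∀ i ∈ Finset.range k, z i * (∑ j ∈ Finset.range k, f i j * g j l) =
          if i = l then z i * D else 0 := by
        intro i hi
        rw [hfg i (Finset.mem_range.1 hi) l hl]
        split_ifs
        · rfl
        · exact mul_zero _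
      rw [← Finset.sum_eq_single_of_mem (f := fun i => if i = l then z i * D else 0) l
        (Finset.mem_range.2 hl) (fun i _ hi => if_neg hi) |>.trans (if_pos rfl),
        ← Finset.sum_congr rfl h5]
      simp only [Finset.sum_mul, Finset.mul_sum]
      rw [Finset.sum_comm]
      refine Finset.sum_congr rfl fun i _ => Finset.sum_congr rfl fun j _ => ?_
      ring
    rw [← h4]
    refine Finset.dvd_sum fun j hj => ?_
    exact (h1 j (Finset.mem_range.1 hj)).mul_right _
  have h6 : ∀ l < k, r ∣ z l := by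
    intro l hl
    rcases hD with rfl | rfl
    · have := h3 l hl
      rwa [mul_one] at this
    · refine IsCoprime.dvd_of_dvd_mul_right ?_ (h3 l hl)
      rw [Int.isCoprime_iff_gcd_eq_one]
      have h7 : r % 2 = 1 := by omega
      have h8 : Odd r := Int.odd_iff.2 h7
      exact (Int.isCoprime_iff_gcd_eq_one.1 (Int.isCoprime_two_right.2 h8))
  choose! w hw using h6
  refine ⟨∑ i ∈ Finset.range k, w i • c i,
    sum_mem fun i hi => S.zsmul_mem (hc i (Finset.mem_range.1 hi)) _, ?_⟩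
  rw [hz, Finset.smul_sum]
  refine Finset.sum_congr rfl fun i hi => ?_
  rw [hw i (Finset.mem_range.1 hi), mul_smul]

end

theorem t_div (hG : T_GR) : T_DIV := by
  intro M _ b C s k h hI hT hk
  obtain ⟨c, hc1, hc2, hc3⟩ := hG M b C s (.E k) h hI hT
  have hl : (gr1 (Ty.E k, s)).length = k := length_mat _ _
  rw [hl] at hc1 hc2 hc3
  have hb : ∀ i < k, ∀ j < k, b (c i) (c j) = s * cE k i j := by
    intro i hi j hj
    rw [hc3 i hi j hj]
    exact ent_mat _ _ hi hj
  have hs : s ≠ 0 := hI.pos.ne'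
  rcases hk with rfl | rfl
  · exact div_aux h _ s hs 7 (cE 7) (ent a7) 2 (Or.inr rfl) e7 c hc1 hc2 hb
  · exact div_aux h _ s hs 8 (cE 8) (ent a8) 1 (Or.inl rfl) e8 c hc1 hc2 hb

end

end Pool.Agent.CN2.H50
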